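import Pool.Agent.Run7.h712.HE.Edm
import Pool.Agent.Run7.h712.HE.Cnt
import Pool.Agent.Run7.h712.TS.Kinds

/-!
# The L-functions of the irreducible representations of the Sato-Tate group, for products of hyperelliptic curves and Jacobians

`C_l` is the curve `y ² = x ^ (2 g_l + 1) + ∑ i ≤ 2 g_l, c_{l, i} x ^ i` (`1 ≤ l ≤ r`) over `ℚ`, and `X_c = ∏ Z_l` where `Z_l` is `C_l` or its
Jacobian. For a prime `p` of good reduction let `x_p` be the class of the normalised Frobenius in `USp (2 g_1) × … × USp (2 g_r)`. It acts on all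
the cohomology groups `H ^ i (X_c) (i / 2)`; for even `i` the Sato-Tate group of a general `X_c` is the image of this product in
`GL (H ^ i (X_c) (i / 2))`, and its irreducible representations are among the exterior tensor products of irreducible representations of
the `USp (2 g_l)`, given by Young diagrams, of which the total number of boxes is even.
-/

set_option autoImplicit false

namespace Pool.Agent.Results.MP_32ceeb_nt.IrreducibleLFunctions

open Finset Filter MeasureTheory Polynomial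

/-- The number of the solutions of `y ^ 2 = x ^ D + ∑ c_i x ^ i` over the field with `p ^ j` elements. For odd `D` the curve has one more
point, at infinity. -/
noncomputable def points {D : ℕ} (c : Fin D → ℤ) (p j : ℕ) [Fact p.Prime] : ℕ :=
  Nat.card {P : GaloisField p j × GaloisField p j // P.2 ^ 2 = P.1 ^ D + ∑ i, (c i : GaloisField p j) * P.1 ^ (i : ℕ)}

/-- The coefficients of `exp (∑ s_j T ^ j / j)`, by Newton's identities; this is `∏ (1 - α T)` if `s_j` is minus the sum of the `α ^ j`. -/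
noncomputable def newton (s : ℕ → ℝ) : ℕ → ℝ
  | 0 => 1
  | k + 1 => (∑ j : Fin (k + 1), s (j + 1) * newton s (k - j)) / (k + 1)

section
variable {r : ℕ} {g : Fin r → ℕ}

/-- The prime `p` is odd and the `r` polynomials are separable modulo `p`. -/
def Good (c : (Σ l : Fin r, Fin (2 * g l + 1)) → ℤ) (p : ℕ) : Prop :=
  p.Prime ∧ p ≠ 2 ∧ ∀ l, (X ^ (2 * g l + 1) + ∑ i : Fin (2 * g l + 1), C (c ⟨l, i⟩ : ZMod p) * X ^ (i : ℕ) : (ZMod p)[X]).Separable

/-- The coefficient of `T ^ k` in `det (1 - T x_p ^ m)` for the curve `C_l`: the sum of the `(m j)`-th powers of the normalised eigenvalues of the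
Frobenius is minus `(points - p ^ (m j)) / p ^ (m j / 2)`. -/
noncomputable def coeff (c : (Σ l : Fin r, Fin (2 * g l + 1)) → ℤ) (l : Fin r) (p m k : ℕ) : ℝ :=
  if h : p.Prime then
    haveI : Fact p.Prime := ⟨h⟩
    newton (fun j => ((points (fun i => c ⟨l, i⟩) p (m * j) : ℝ) - (p : ℝ) ^ (m * j)) / Real.sqrt p ^ (m * j)) k
  else 0

/-- The trace of `x_p ^ m` on the `k`-th exterior power of the cohomology `H ^ 1` of `C_l`; zero for negative `k`. -/
noncomputable def ext (c : (Σ l : Fin r, Fin (2 * g l + 1)) → ℤ) (l : Fin r) (p m : ℕ) (k : ℤ) : ℝ :=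
  if 0 ≤ k then (-1) ^ k.toNat * coeff c l p m k.toNat else 0

/-- The value at `x_p ^ m` of the character of `USp (2 g_l)` with the Young diagram whose columns have the lengths
`μ 0 ≥ μ 1 ≥ …`: the dual Jacobi-Trudi determinant of the `e (μ i - i + j) - e (μ i - i - j - 2)` for the indices `0 ≤ i, j < n`. -/
noncomputable def character (c : (Σ l : Fin r, Fin (2 * g l + 1)) → ℤ) (l : Fin r) {n : ℕ} (μ : Fin n → ℕ) (p m : ℕ) : ℝ :=
  (Matrix.of fun i j : Fin n => ext c l p m ((μ i : ℤ) - (i : ℕ) + (j : ℕ)) - ext c l p m ((μ i : ℤ) - (i : ℕ) - (j : ℕ) - 2)).det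

/-- The term of the `(m + 1)`-st powers in the logarithm of the Euler factor at `p` of `L(ρ, s)`, where `ρ` is the product of the representations with
the diagrams `μ l`. -/
noncomputable def term (c : (Σ l : Fin r, Fin (2 * g l + 1)) → ℤ) {n : Fin r → ℕ} (μ : ∀ l, Fin (n l) → ℕ) (s : ℂ) (p m : ℕ) : ℂ :=
  ((∏ l, character c l (μ l) p (m + 1) : ℝ) : ℂ) / ((m + 1 : ℕ) : ℂ) * (p : ℂ) ^ (-(((m + 1 : ℕ) : ℂ) * s))

open Classical in
/-- The logarithm of the Euler factor `det (1 - ρ(x_p) p ^ (-s)) ^ (-1)` at a good prime, and zero for the other primes. -/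
noncomputable def localLog (c : (Σ l : Fin r, Fin (2 * g l + 1)) → ℤ) {n : Fin r → ℕ} (μ : ∀ l, Fin (n l) → ℕ) (s : ℂ) (p : ℕ) : ℂ :=
  if Good c p then ∑' m : ℕ, term c μ s p m else 0

/-- The logarithm of the L-function `L(ρ, s) = ∏ det (1 - ρ(x_p) p ^ (-s)) ^ (-1)` over the good primes. -/
noncomputable def logL (c : (Σ l : Fin r, Fin (2 * g l + 1)) → ℤ) {n : Fin r → ℕ} (μ : ∀ l, Fin (n l) → ℕ) (s : ℂ) : ℂ :=
  ∑' p : Nat.Primes, localLog c μ s p

/-- For all the Young diagrams `μ l` with at most `2 g_l + 1` boxes, not all empty, and all `s` with `1 + 1 / log N ≤ Re s ≤ 2` and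
`|Im s| ≤ N ^ κ`: `|log L(ρ, s)| ≤ C log log (y + |Im s|)`. -/
def Quiet (κ C : ℝ) (N y : ℕ) (c : (Σ l : Fin r, Fin (2 * g l + 1)) → ℤ) : Prop :=
  ∀ (n : Fin r → ℕ) (μ : ∀ l, Fin (n l) → ℕ), (∀ l, Antitone (μ l)) → (∀ l i, 1 ≤ μ l i) → (∀ l, ∑ i, μ l i ≤ 2 * g l + 1) →
    (∃ l, 0 < n l) → ∀ s : ℂ, 1 + 1 / Real.log N ≤ s.re → s.re ≤ 2 → |s.im| ≤ (N : ℝ) ^ κ →
      ‖logL c μ s‖ ≤ C * Real.log (Real.log (y + |s.im|))

end

section
variable {J : Type} [Fintype J] [DecidableEq J]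

open Classical in
/-- All but the proportion `y ^ (-E)` of the members in any box with sides at least `N`, anywhere. -/
def Boxes (P : ℝ → ℝ → ℕ → ℕ → (J → ℤ) → Prop) (E : ℕ) : Prop :=
  ∃ κ C : ℝ, 0 < κ ∧ 0 < C ∧ ∃ y₀ : ℕ, 16 ≤ y₀ ∧ ∀ y N : ℕ, y₀ ≤ y → 2 ≤ N → ∀ (a : J → ℤ) (L : J → ℕ), (∀ l, N ≤ L l) →
    (((Fintype.piFinset fun l => Ioc (a l) (a l + L l)).filter fun c => ¬ P κ C N y c).card : ℝ) ≤
      1 / (y : ℝ) ^ E * (Fintype.piFinset fun l => Ioc (a l) (a l + L l)).card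

open Classical in
/-- All but the proportion `y ^ (-E)` of the members `x t`, for the integers `t ∈ (N, 2 N]` and for the primes `t ∈ (N, 2 N]`. -/
def AlmostAll (P : ℝ → ℝ → ℕ → ℕ → (J → ℤ) → Prop) (E : ℕ) (x : ℕ → J → ℤ) : Prop :=
  ∃ κ C : ℝ, 0 < κ ∧ 0 < C ∧ ∃ y₀ : ℕ, 16 ≤ y₀ ∧ ∀ y N : ℕ, y₀ ≤ y → 2 ≤ N →
    (((Ioc N (2 * N)).filter fun t => ¬ P κ C N y (x t)).card : ℝ) ≤ 1 / (y : ℝ) ^ E * (Ioc N (2 * N)).card ∧
    ((((Ioc N (2 * N)).filter Nat.Prime).filter fun t => ¬ P κ C N y (x t)).card : ℝ) ≤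
      1 / (y : ℝ) ^ E * ((Ioc N (2 * N)).filter Nat.Prime).card

end

/-- The generalised polynomial `∑ t ∈ F, a t * X ^ t` has the leading exponent `c`, which is positive and not an integer, and a
positive leading coefficient. -/
def Admissible (F : Finset ℝ) (a : ℝ → ℝ) (c : ℝ) : Prop :=
  c ∈ F ∧ (∀ t ∈ F, t ≤ c) ∧ 0 < c ∧ (∀ k : ℕ, c ≠ k) ∧ 0 < a c

/-- The functions `F t` have separated derivatives and increasing second derivatives on `[u, v]`, for large `t`. -/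
def Separated (ρ u v : ℝ) (F : ℕ → ℝ → ℝ) : Prop :=
  (∀ n, ContDiff ℝ 2 (F n)) ∧ ∃ n₀ : ℕ, ∀ n, n₀ ≤ n → ∀ x ∈ Set.Icc u v,
    (n : ℝ) ^ (ρ - 1) ≤ deriv (F (n + 1)) x - deriv (F n) x ∧
      deriv (deriv (F n)) x ≤ deriv (deriv (F (n + 1))) x

theorem newton_eq (s : ℕ → ℝ) (k : ℕ) : newton s k = Pool.Agent.Run7.h712.HE.coe (fun j => s (j + 1)) k := by
  induction k using Nat.strong_induction_on with
  | _ k ih =>
    rcases k with _ | k
    · rw [newton, Pool.Agent.Run7.h712.HE.coe]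
    · rw [newton, Pool.Agent.Run7.h712.HE.coe]
      congr 1
      refine Finset.sum_congr rfl fun j _ => ?_
      rw [ih (k - j) (by omega)]

section
variable {r : ℕ} {g : Fin r → ℕ}

open Pool.Agent.Run7.h712.HE (cur Gd CP ch evk PEk sn ez lo Mn Near)
open Pool.Agent.Y722.HS (red)

theorem Good_iff (c : (Σ l : Fin r, Fin (2 * g l + 1)) → ℤ) (p : ℕ) [hp : Fact p.Prime] : Good c p ↔ Gd p (cur (red p c)) :=
  ⟨fun h => h.2, fun h => ⟨hp.out, h⟩⟩

theorem coeff_eq (c : (Σ l : Fin r, Fin (2 * g l + 1)) → ℤ) (l : Fin r) (p : ℕ) [hp : Fact p.Prime] (h2 : p ≠ 2) (m : ℕ) (hm : 1 ≤ m) (k : ℕ) :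
    coeff c l p m k = Pool.Agent.Run7.h712.HE.coe (fun i => sn p (d := 2 * g l) (cur (red p c) l) (m * (i + 1) - 1)) k := by
  unfold coeff
  rw [dif_pos hp.out, newton_eq]
  congr 1
  funext j
  have hj : 1 ≤ m * (j + 1) := Nat.mul_pos hm (by omega)
  have h1 := Pool.Agent.Run7.h712.HE.points_eq h2 (fun i => c ⟨l, i⟩) (j := m * (j + 1)) hj
  have h3 : (points (fun i => c ⟨l, i⟩) p (m * (j + 1)) : ℝ) = Pool.Agent.Run7.h712.HE.points (fun i => c ⟨l, i⟩) p (m * (j + 1)) := rfl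
  rw [h3, h1, add_sub_cancel_left]
  unfold sn
  rw [Nat.sub_add_cancel hj]
  rfl

theorem character_eq (c : (Σ l : Fin r, Fin (2 * g l + 1)) → ℤ) (l : Fin r) (p : ℕ) [hp : Fact p.Prime] (h2 : p ≠ 2) (m : ℕ) (hm : 1 ≤ m)
    {n : ℕ} (μ : Fin n → ℕ) : character c l μ p m = (-1) ^ (∑ i, μ i) * evk p m (d := 2 * g l) (CP μ) (cur (red p c) l) := by
  have h1 : ∀ k : ℤ, ext c l p m k = ez (fun i => sn p (d := 2 * g l) (cur (red p c) l) (m * (i + 1) - 1)) k := by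
    intro k
    unfold ext ez
    rw [coeff_eq c l p h2 m hm]
  unfold character
  simp only [h1]
  rw [Pool.Agent.Run7.h712.HE.ez_det]
  congr 1
  exact (Pool.Agent.Run7.h712.HE.eval_CP _ μ).symm

theorem term_eq (c : (Σ l : Fin r, Fin (2 * g l + 1)) → ℤ) {n : Fin r → ℕ} (μ : ∀ l, Fin (n l) → ℕ) (s : ℂ) (p : ℕ) [hp : Fact p.Prime]
    (h2 : p ≠ 2) (m : ℕ) : term c μ s p m = (-1) ^ (∑ l, ∑ i, μ l i) *
      (((PEk g (fun l => CP (μ l)) (m + 1) p (cur (red p c)) / (m + 1) : ℝ) : ℂ) * (p : ℂ) ^ (-(((m + 1 : ℕ) : ℂ) * s))) := by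
  have h3 : ∏ l, character c l (μ l) p (m + 1) = (-1) ^ (∑ l, ∑ i, μ l i) * PEk g (fun l => CP (μ l)) (m + 1) p (cur (red p c)) := by
    unfold PEk
    rw [Finset.prod_congr rfl fun l _ => character_eq c l p h2 (m + 1) (by omega) (μ l), Finset.prod_mul_distrib, Finset.prod_pow_eq_pow_sum]
  unfold term
  rw [h3]
  push_cast
  ring

theorem localLog_eq (c : (Σ l : Fin r, Fin (2 * g l + 1)) → ℤ) {n : Fin r → ℕ} (μ : ∀ l, Fin (n l) → ℕ) (s : ℂ) (p : ℕ) (hp : p.Prime) :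
    localLog c μ s p = (-1) ^ (∑ l, ∑ i, μ l i) * lo (PEk g fun l => CP (μ l)) p (red p c) s := by
  have hF : Fact p.Prime := ⟨hp⟩
  unfold localLog lo
  rw [dif_pos hp]
  by_cases h : Good c p
  · rw [if_pos h, if_pos ((Good_iff c p).1 h), ← tsum_mul_left]
    exact tsum_congr fun m => term_eq c μ s p h.2.1 m
  · rw [if_neg h, if_neg fun h' => h ((Good_iff c p).2 h'), mul_zero]

theorem logL_eq (c : (Σ l : Fin r, Fin (2 * g l + 1)) → ℤ) {n : Fin r → ℕ} (μ : ∀ l, Fin (n l) → ℕ) (u : ℂ) :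
    ‖logL c μ (1 + u)‖ = ‖∑' p : Nat.Primes, (lo (PEk g fun l => CP (μ l)) p (red p c) (1 + u) - ((0 : ℝ) : ℂ) * ((p : ℕ) : ℂ) ^ (-(1 + u)))‖ := by
  have h1 : logL c μ (1 + u) = (-1) ^ (∑ l, ∑ i, μ l i) *
      ∑' p : Nat.Primes, (lo (PEk g fun l => CP (μ l)) p (red p c) (1 + u) - ((0 : ℝ) : ℂ) * ((p : ℕ) : ℂ) ^ (-(1 + u))) := by
    unfold logL
    rw [← tsum_mul_left]
    refine tsum_congr fun p => ?_
    rw [localLog_eq c μ (1 + u) p p.2, Complex.ofReal_zero, zero_mul, sub_zero]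
  rw [h1, norm_mul, norm_pow, norm_neg, norm_one, one_pow, one_mul]

theorem main (E : ℕ) : Mn (Quiet (g := g)) E := by
  obtain ⟨Q, hQ⟩ : ∃ Q : Finset (Fin r → Σ n : ℕ, Fin n → ℕ), Q =
      (Fintype.piFinset fun l : Fin r => (range (2 * g l + 2)).sigma fun n => Fintype.piFinset fun _ : Fin n => range (2 * g l + 2)).filter
        fun ν => (∀ l, ∑ i, (ν l).2 i ≤ 2 * g l + 1) ∧ ∃ l, ∃ h0 : 0 < (ν l).1, 1 ≤ (ν l).2 ⟨0, h0⟩ := ⟨_, rfl⟩
  have hQs : ∀ (n : Fin r → ℕ) (μ : ∀ l, Fin (n l) → ℕ), (∀ l i, 1 ≤ μ l i) → (∀ l, ∑ i, μ l i ≤ 2 * g l + 1) → (∃ l, 0 < n l) →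
      (fun l => (⟨n l, μ l⟩ : Σ n : ℕ, Fin n → ℕ)) ∈ Q := by
    intro n μ hk hs hl
    rw [hQ, mem_filter, Fintype.mem_piFinset]
    refine ⟨fun l => ?_, hs, ?_⟩
    · rw [mem_sigma]
      refine ⟨?_, ?_⟩
      · rw [mem_range]
        have h1 : ∑ i : Fin (n l), 1 ≤ ∑ i, μ l i := Finset.sum_le_sum fun i _ => hk l i
        rw [Finset.sum_const, card_univ, Fintype.card_fin, smul_eq_mul, mul_one] at h1
        have h2 := hs l
        show n l < 2 * g l + 2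
        omega
      · rw [Fintype.mem_piFinset]
        intro i
        rw [mem_range]
        have h1 : μ l i ≤ ∑ i, μ l i := Finset.single_le_sum (f := fun i => μ l i) (fun _ _ => Nat.zero_le _) (mem_univ i)
        have h2 := hs l
        show μ l i < 2 * g l + 2
        omega
    · obtain ⟨l, hl⟩ := hl
      exact ⟨l, hl, hk l _⟩
  have h1 := Mn.all (J := Σ l : Fin r, Fin (2 * g l + 1)) Q (fun ν => Near fun c u => ∑' p : Nat.Primes,
      (lo (PEk g fun l => CP (ν l).2) p (red p c) (1 + u) - ((0 : ℝ) : ℂ) * ((p : ℕ) : ℂ) ^ (-(1 + u)))) E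
    (fun ν _ κ κ' C C' M y c _ h2 h3 h4 h5 h6 => h6.mono h2 h3 h4 h5) (fun ν hν => by
      rw [hQ, mem_filter] at hν
      obtain ⟨-, hw, l, h0, hl⟩ := hν
      exact Pool.Agent.Run7.h712.HE.edgePE _ (fun l => Pool.Agent.Run7.h712.HE.WS.mono (hw l) (Pool.Agent.Run7.h712.HE.CP_WS (ν l).2)) 0
        (Finset.prod_eq_zero (mem_univ l) (Pool.Agent.Run7.h712.HE.LF_CP_zero (ν l).2 h0 hl)) (E + 1))
  refine h1.imp fun κ C M y c hκ hC hy hM h2 n μ _ hk hs hl s hs1 hs2 hs3 => ?_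
  obtain ⟨u, rfl⟩ : ∃ u : ℂ, s = 1 + u := ⟨s - 1, by ring⟩
  rw [Complex.add_re, Complex.one_re] at hs1 hs2
  have him : (1 + u).im = u.im := by rw [Complex.add_im, Complex.one_im, zero_add]
  rw [him] at hs3 ⊢
  rw [logL_eq]
  exact h2 _ (hQs n μ hk hs hl) u (by linarith) (by linarith) hs3

/-- **The L-functions of the irreducible representations of the Sato-Tate groups.** The series `logL` converge absolutely for `Re s > 1`. For every
exponent `E`, all but the proportion `y ^ (-E)` of the members are `Quiet`: all the L-functions `L(ρ, s)`, for the nontrivial `ρ` given by Young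
diagrams with at most `2 g_l + 1` boxes, show neither a zero nor a pole at the distance `1 / log N` from the line `Re s = 1`, up to the height `N ^ κ`,
* (1) in any box with sides at least `N`, anywhere;
* (2) for the parameters which are the integral parts of generalised polynomials with different leading exponents, at the integers `t` and at
  the primes `t` of `(N, 2 N]`;
* (3) for almost all members of the families of sequences `⌊f_i(t)(ξ_i)⌋` (separated derivatives), `⌊ξ_i g_i(t) + h_i(t)⌋`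
  (with `g_i (t + 1) - g_i t ≥ t ^ (ρ - 1)`) and `⌊ξ_i ^ g_i(t) + h_i(t)⌋` (`g_i` strictly increasing, `ξ_i > 1`), of any growth. -/
theorem result (hr : 1 ≤ r) (E : ℕ) (ρ : ℝ) (hρ : 0 < ρ) (hρ1 : ρ ≤ 1) :
    (∀ (c : (Σ l : Fin r, Fin (2 * g l + 1)) → ℤ) (n : Fin r → ℕ) (μ : ∀ l, Fin (n l) → ℕ) (s : ℂ), 1 < s.re →
      (∀ p, Good c p → Summable fun m => term c μ s p m) ∧ Summable fun p : Nat.Primes => localLog c μ s p) ∧
    Boxes (Quiet (g := g)) E ∧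
    (∀ (f : (Σ l : Fin r, Fin (2 * g l + 1)) → Finset ℝ) (b : (Σ l : Fin r, Fin (2 * g l + 1)) → ℝ → ℝ)
      (c : (Σ l : Fin r, Fin (2 * g l + 1)) → ℝ), (∀ i, Admissible (f i) (b i) (c i)) → Function.Injective c →
      AlmostAll (Quiet (g := g)) E (fun t i => ⌊∑ s ∈ f i, b i s * (t : ℝ) ^ s⌋)) ∧
    (∀ (u v : (Σ l : Fin r, Fin (2 * g l + 1)) → ℝ) (f : (Σ l : Fin r, Fin (2 * g l + 1)) → ℕ → ℝ → ℝ), (∀ i, Separated ρ (u i) (v i) (f i)) →
      ∀ᵐ ξ : (Σ l : Fin r, Fin (2 * g l + 1)) → ℝ, (∀ i, ξ i ∈ Set.Ioc (u i) (v i)) →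
        AlmostAll (Quiet (g := g)) E (fun t i => ⌊f i t (ξ i)⌋)) ∧
    (∀ a h : (Σ l : Fin r, Fin (2 * g l + 1)) → ℕ → ℝ, (∀ i, ∀ᶠ t : ℕ in atTop, (t : ℝ) ^ (ρ - 1) ≤ a i (t + 1) - a i t) →
      ∀ᵐ ξ : (Σ l : Fin r, Fin (2 * g l + 1)) → ℝ, AlmostAll (Quiet (g := g)) E (fun t i => ⌊ξ i * a i t + h i t⌋)) ∧
    (∀ (a : (Σ l : Fin r, Fin (2 * g l + 1)) → ℕ → ℕ) (h : (Σ l : Fin r, Fin (2 * g l + 1)) → ℕ → ℝ), (∀ i, StrictMono (a i)) →
      ∀ᵐ ξ : (Σ l : Fin r, Fin (2 * g l + 1)) → ℝ, (∀ i, 1 < ξ i) →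
        AlmostAll (Quiet (g := g)) E (fun t i => ⌊ξ i ^ a i t + h i t⌋)) := by
  have : Nonempty (Σ l : Fin r, Fin (2 * g l + 1)) := ⟨⟨⟨0, hr⟩, 0⟩⟩
  refine ⟨fun c n μ s hs => ?_, Pool.Agent.Run7.h712.TS.kinds (Quiet (g := g)) E (main E) ρ hρ hρ1⟩
  obtain ⟨M, hM, hF⟩ := Pool.Agent.Run7.h712.HE.PEk_bd (g := g) fun l => CP (μ l)
  obtain ⟨h1, h2⟩ := Pool.Agent.Run7.h712.HE.lo_summable hM (fun k _ => hF k) c s hs
  refine ⟨fun p hp => ?_, ?_⟩
  · have hpF : Fact p.Prime := ⟨hp.1⟩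
    have h3 := (h1 p hpF hp.2.1 (cur (red p c))).mul_left ((-1 : ℂ) ^ (∑ l, ∑ i, μ l i))
    refine h3.congr fun m => ?_
    exact (term_eq c μ s p hp.2.1 m).symm
  · have h3 := h2.mul_left ((-1 : ℂ) ^ (∑ l, ∑ i, μ l i))
    refine h3.congr fun p => ?_
    exact (localLog_eq c μ s p p.2).symm

end

end Pool.Agent.Results.MP_32ceeb_nt.IrreducibleLFunctions
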