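import Pool.Agent.Run7.h3.ST.Brg

/-!
# The joint Sato-Tate law of the powers of Frobenius for random hypersurfaces, random sections and their products

Let `X` be a smooth hypersurface of degree `δ` in `P ^ n` over `Q`. For a prime `p` of good reduction and `q = p ^ j`
`#X(F_q) = 1 + q + … + q ^ (n - 1) + (-1) ^ (n - 1) t_{p, j} q ^ ((n - 1) / 2)`, where `t_{p, j}` is the trace of the `j`-th power of
Frobenius on the (normalised) primitive part of `H ^ (n - 1)(X)`. The Sato-Tate conjecture predicts for general `X` that the vectors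
`(t_{p, 1}, t_{p, 2}, …)`, which determine the conjugacy class `x_p`, are distributed as `(Tr g, Tr g ^ 2, …)`, `g` a random matrix of `O(b)`
(`n` odd, the cohomology of even degree) or `USp(b)` (`n` even). The joint moments of these traces are, up to the order `b`, those of
independent normal variables of variance `j` and mean `±1` (`j` even) or `0` (`j` odd) (Diaconis, Shahshahani).

It is proved, unconditionally, that for almost all `X` the joint moments `∏_j t_{p, j} ^ (a_j)` with `2 ∑ j a_j ≤ δ + 1` have these averages over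
the primes in all intervals, with the error `4 Y ^ (1 / 2 + ε / 2)` for the sum over the primes up to `Y`, and any bounded weights; the same for
several random hypersurfaces `X_l` together (that is, for the cohomology of the products `∏ X_l`, of even degree also where some
`X_l` have odd dimension): the components are independent.

The same is true for the sections `W ∩ X` of any fixed closed subscheme `W` of `P ^ n` with `p ^ (j D) (1 + O(p ^ (-1 / 2)))` points over the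
field with `p ^ j` elements, `D ≥ 2` (the vanishing part of the cohomology of the section); `W` may be singular.

Proof. The values of a random form at closed points of degrees `e_i` with `∑ e_i ≤ δ + 1` are independent and uniform in the residue fields: by
interpolation over the algebraic closure, descended with an element of trace one. Hence the deviations of the number of the
closed points of each degree are independent up to the weight `δ + 1` and have nearly normal moments. The chinese remainder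
theorem gives the second moments of sums over primes, and the inequality of Rademacher and Menshov makes them uniform over the intervals.
-/

set_option autoImplicit false

namespace Pool.Agent.Results.MP_32ceeb_nt.PowerTraces

open Finset MvPolynomial
open Pool.Agent.Y722.HS (Mon form IsSmooth)
open Run7.h3.ST
open scoped LinearAlgebra.Projectivization Nat

/-- The number of the points over the field with `p ^ j` elements of the subscheme of `P ^ n` defined by the forms in `S`. -/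
noncomputable def points {n : ℕ} (p j : ℕ) (S : Set (MvPolynomial (Fin (n + 1)) ℤ)) : ℕ :=
  open scoped Classical in
  if h : p.Prime then
    haveI : Fact p.Prime := ⟨h⟩
    Nat.card {P : ℙ (GaloisField p j) (Fin (n + 1) → GaloisField p j) // ∀ G ∈ S, aeval P.rep G = 0}
  else 0

/-- The number `(-1) ^ (D - 1) (#V(F_q) - c) / q ^ ((D - 1) / 2)`, `q = p ^ j`, for the intersection `V` of `W` (defined by `S`) and the
hypersurface `F = 0`. -/
noncomputable def trace {n : ℕ} (S : Set (MvPolynomial (Fin (n + 1)) ℤ)) (F : MvPolynomial (Fin (n + 1)) ℤ) (D : ℕ) (c : ℝ) (p j : ℕ) : ℝ :=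
  (-1) ^ (D - 1) * (((points p j (S ∪ {F}) : ℝ) - c) / Real.sqrt p ^ (j * (D - 1)))

/-- The hypersurface `F = 0` is smooth over the algebraic closure of the field with `p` elements. -/
def Good {n : ℕ} (F : MvPolynomial (Fin (n + 1)) ℤ) (p : ℕ) : Prop :=
  ∀ _ : Fact p.Prime, IsSmooth (map (algebraMap (ZMod p) (AlgebraicClosure (ZMod p))) (map (Int.castRingHom (ZMod p)) F))

/-- The moment of order `a` of the trace of the `j`-th power of a random matrix of a large orthogonal (`s = 1`) or symplectic (`s = -1`) group: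
that of `s η + √j x`, where `η = 1` if `j` is even and `η = 0` otherwise and `x` is a standard normal variable. -/
noncomputable def moment (s : ℝ) (j a : ℕ) : ℝ :=
  ∑ i ∈ range (a / 2 + 1), (a.choose (2 * i) : ℝ) * ((2 * i - 1)‼ : ℕ) * (j : ℝ) ^ i * (if Even j then s else 0) ^ (a - 2 * i)

/-- The numbers `z_p` have the average `m` with the weights `w`, up to the square root, over all intervals of primes: the sums over the primes
in `𝒢` in `(Y, Y']`, for all `Y ≤ Y'` with `X₀ ≤ Y'` and `8 Y' ^ 3 ≤ T`. -/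
def Typical (ε : ℝ) (w : ℕ → ℝ) (m : ℝ) (𝒢 : Set ℕ) (X₀ : ℕ) (T : ℝ) (z : ℕ → ℝ) : Prop :=
  ∀ Y Y' : ℕ, Y ≤ Y' → X₀ ≤ Y' → 8 * (Y' : ℝ) ^ 3 ≤ T →
    |∑ᶠ p ∈ {p : ℕ | p.Prime ∧ p ∈ 𝒢 ∧ Y < p ∧ p ≤ Y'}, w p * (z p - m)| ≤ 4 * (Y' : ℝ) ^ (1 / 2 + ε / 2)

/-- The integer vectors `t` with `N i ≤ t i < N i + L i`. -/
noncomputable def box {κ : Type} [Fintype κ] [DecidableEq κ] (N : κ → ℤ) (L : κ → ℕ) : Finset (κ → ℤ) :=
  Fintype.piFinset fun i => Ico (N i) (N i + L i)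

/-- For all weights `w` with `|w_p| ≤ 1`, all boxes with sides at least `T` and all `X₀` the vectors `t` of the box for which the numbers
`z t p` are not typical are at most `C X₀ ^ (-ε / 2)` of all. -/
def AlmostAll {κ : Type} [Fintype κ] [DecidableEq κ] (ε C m : ℝ) (𝒢 : (κ → ℤ) → Set ℕ) (z : (κ → ℤ) → ℕ → ℝ) : Prop :=
  ∀ w : ℕ → ℝ, (∀ p, |w p| ≤ 1) → ∀ (N : κ → ℤ) (L : κ → ℕ) (T : ℝ), (∀ i, T ≤ L i) → ∀ X₀ : ℕ, 1 ≤ X₀ →
    ({t ∈ box N L | ¬ Typical ε w m (𝒢 t) X₀ T (z t)} : Set (κ → ℤ)).ncard ≤ C * (X₀ : ℝ) ^ (-(ε / 2)) * ∏ i, (L i : ℝ)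

lemma almost {κ : Type} [Fintype κ] [DecidableEq κ] {ε m : ℝ} (X : (p : ℕ) → (κ → ZMod p) → ℝ)
    (H : ∃ C : ℝ, 0 ≤ C ∧ ∀ (w : ℕ → ℝ), (∀ p, |w p| ≤ 1) → ∀ (N : κ → ℤ) (L : κ → ℕ) (T : ℝ), (∀ i, T ≤ L i) → ∀ X₀ : ℕ, 1 ≤ X₀ →
      ∃ E ⊆ bx N L, (E.card : ℝ) ≤ C * (X₀ : ℝ) ^ (-(ε / 2)) * ∏ i, (L i : ℝ) ∧
        ∀ t ∈ bx N L, t ∉ E → ∀ Y Y' : ℕ, Y ≤ Y' → X₀ ≤ Y' → 8 * (Y' : ℝ) ^ 3 ≤ T →
          |∑ i ∈ Ico Y Y', ff X w t i| ≤ 4 * (Y' : ℝ) ^ (1 / 2 + ε / 2))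
    (𝒢 : (κ → ℤ) → Set ℕ) (z : (κ → ℤ) → ℕ → ℝ)
    (hz : ∀ t p, p.Prime → (p ∈ 𝒢 t → X p (rd p t) = z t p - m) ∧ (p ∉ 𝒢 t → X p (rd p t) = 0)) :
    ∃ C : ℝ, AlmostAll ε C m 𝒢 z := by
  classical
  obtain ⟨C, hC, h⟩ := H
  refine ⟨C, fun w hw N L T hT X₀ hX₀ => ?_⟩
  obtain ⟨E, hE, hcard, hgood⟩ := h w hw N L T hT X₀ hX₀
  refine le_trans ?_ hcard
  have hsub : ({t ∈ box N L | ¬ Typical ε w m (𝒢 t) X₀ T (z t)} : Set (κ → ℤ)) ⊆ ↑E := by
    rintro t ⟨ht, hnt⟩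
    by_contra hno
    refine hnt fun Y Y' hYY hXY hYT => ?_
    have h1 := hgood t ht hno Y Y' hYY hXY hYT
    have h2 : ({p : ℕ | p.Prime ∧ p ∈ 𝒢 t ∧ Y < p ∧ p ≤ Y'} : Set ℕ) = ↑((Ioc Y Y').filter fun p => p.Prime ∧ p ∈ 𝒢 t) := by
      ext p
      rw [mem_coe, mem_filter, mem_Ioc, Set.mem_ofPred_eq]
      tauto
    rw [h2, finsum_mem_coe_finset]
    have h3 : ∑ p ∈ (Ioc Y Y').filter (fun p => p.Prime ∧ p ∈ 𝒢 t), w p * (z t p - m) = ∑ i ∈ Ico Y Y', ff X w t i := by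
      have h4 : Ioc Y Y' = (Ico Y Y').image fun i => i + 1 := by
        ext p
        rw [mem_image, mem_Ioc]
        constructor
        · rintro ⟨h5, h6⟩
          exact ⟨p - 1, mem_Ico.2 ⟨by omega, by omega⟩, by omega⟩
        · rintro ⟨i, hi, rfl⟩
          have := mem_Ico.1 hi
          omega
      rw [h4, sum_filter, sum_image (fun x _ y _ hxy => by simpa using hxy)]
      refine sum_congr rfl fun i _ => ?_
      unfold ff
      by_cases hp : (i + 1).Prime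
      · rw [if_pos hp]
        obtain ⟨h5, h6⟩ := hz t (i + 1) hp
        by_cases hG : i + 1 ∈ 𝒢 t
        · rw [if_pos ⟨hp, hG⟩, h5 hG]
        · rw [if_neg (fun h => hG h.2), h6 hG, mul_zero]
      · rw [if_neg hp, if_neg (fun h => hp h.1)]
    rw [h3]
    exact h1
  have h1 := Set.ncard_le_ncard hsub (Finset.finite_toSet _)
  rw [Set.ncard_coe_finset] at h1
  exact_mod_cast h1

lemma moment_eq {D : ℕ} (j a : ℕ) : moment ((-1) ^ (D - 1)) j a = ((-1 : ℝ) ^ (D - 1)) ^ a * mj j a := by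
  have hs : ((-1 : ℝ) ^ (D - 1)) ^ 2 = 1 := by rw [← pow_mul, mul_comm, pow_mul, neg_one_sq, _root_.one_pow]
  rw [mom_eq hs]
  unfold moment
  refine sum_congr rfl fun i _ => ?_
  congr 2
  unfold eta
  split_ifs <;> simp

lemma points_eq {n : ℕ} {S : Set (MvPolynomial (Fin (n + 1)) ℤ)} (hS : ∀ G ∈ S, ∃ d, G.IsHomogeneous d) (p : ℕ) [hp : Fact p.Prime] {j : ℕ}
    (hj : 1 ≤ j) : points p j S = (VW (WS S p) j).card := by
  unfold points
  rw [dif_pos hp.out]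
  exact pts_WS hS p hj

lemma trace_eq {n : ℕ} {S : Set (MvPolynomial (Fin (n + 1)) ℤ)} (hS : ∀ G ∈ S, ∃ d, G.IsHomogeneous d) (p : ℕ) [hp : Fact p.Prime] {j : ℕ}
    (hj : 1 ≤ j) {δ : ℕ} (t : Mon n δ → ℤ) (D : ℕ) (b : ℕ → ℝ) :
    trace S (form t) D (b j) p j = (-1) ^ (D - 1) * tau (WS S p) D b j (fun m => (t m : ZMod p)) := by
  unfold trace tau points
  rw [dif_pos hp.out]
  have h1 := pts_sec hS p hj t
  rw [h1]
  unfold sp
  rw [← pow_mul, mul_comm (D - 1) j]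

/-- **Part 1.** Sections. -/
theorem sections {Λ : Type} [Fintype Λ] [DecidableEq Λ] (n D δ : Λ → ℕ) (S : ∀ l, Set (MvPolynomial (Fin (n l + 1)) ℤ)) (J : ℕ)
    (a : Λ → ℕ → ℕ) (C₀ ε : ℝ) (hD : ∀ l, 2 ≤ D l) (hS : ∀ l, ∀ G ∈ S l, ∃ d, G.IsHomogeneous d)
    (hW : ∀ l, ∀ p : ℕ, p.Prime → ∀ j ∈ Icc 1 J, |(points p j (S l) : ℝ) - (p : ℝ) ^ (j * D l)| ≤ C₀ * ((p : ℝ) ^ (j * D l) / Real.sqrt p))
    (ha : ∀ l, 2 * ∑ j ∈ Icc 1 J, j * a l j ≤ δ l + 1) (hε : 0 < ε) (hε1 : ε ≤ 1) :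
    ∃ C : ℝ, AlmostAll ε C (∏ l, ∏ j ∈ Icc 1 J, moment ((-1) ^ (D l - 1)) j (a l j)) (fun _ => Set.univ)
      fun (t : (Σ l, Mon (n l) (δ l)) → ℤ) p =>
        ∏ l, ∏ j ∈ Icc 1 J, trace (S l) (form fun m => t ⟨l, m⟩) (D l) ((points p j (S l) : ℝ) / (p : ℝ) ^ j) p j ^ a l j := by
  classical
  obtain ⟨b, hb⟩ : ∃ b : Λ → ℕ → ℕ → ℝ, b = fun l p j => (points p j (S l) : ℝ) / (p : ℝ) ^ j := ⟨_, rfl⟩
  have hs : ∀ l : Λ, ((-1 : ℝ) ^ (D l - 1)) ^ 2 = 1 := fun l => by rw [← pow_mul, mul_comm, pow_mul, neg_one_sq, _root_.one_pow]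
  have hmm : ∏ l, ∏ j ∈ Icc 1 J, moment ((-1) ^ (D l - 1)) j (a l j) = mm (fun l => (-1 : ℝ) ^ (D l - 1)) a J := by
    unfold mm
    exact prod_congr rfl fun l _ => prod_congr rfl fun j _ => moment_eq j (a l j)
  rw [hmm]
  have hSz : ∀ l (p : ℕ) [Fact p.Prime], Sz (WS (S l) p) (D l) J |C₀| := by
    intro l p hp
    refine ⟨stab_WS p, fun e he => ?_⟩
    have h1 := hW l p hp.out e he
    rw [points_eq (hS l) p (mem_Icc.1 he).1, pow_mul] at h1
    refine h1.trans ?_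
    unfold ep
    rw [mul_one_div]
    exact mul_le_mul_of_nonneg_right (le_abs_self _) (by positivity)
  have hE := engine (δ := δ) (d := D) (B := J) (fun l p _ => WS (S l) p) b hs a (abs_nonneg C₀) hD hSz (fun l p hp j hj => by
      rw [hb]
      simp only
      rw [points_eq (hS l) p (mem_Icc.1 hj).1, sub_self, abs_zero]
      have h1 := (ep_pos (p := p)).le
      have h2 := (sp_pos (p := p) (n := D l)).le
      positivity)
    ha (fun _ _ => True) (fun _ _ => 0) (fun _ _ => le_rfl) (fun _ _ h => absurd trivial h) (le_refl (0 : ℝ)) (fun p hp => by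
      rw [Q282.CL.av_const, zero_mul]) hε hε1
  refine almost _ hE _ _ fun t p hp => ⟨fun _ => ?_, fun h => absurd (Set.mem_univ p) h⟩
  have hF : Fact p.Prime := ⟨hp⟩
  unfold XX
  rw [dif_pos hp, if_pos trivial]
  congr 1
  unfold TT
  refine prod_congr rfl fun l _ => prod_congr rfl fun j hj => ?_
  have h1 := trace_eq (hS l) p (mem_Icc.1 hj).1 (fun m => t ⟨l, m⟩) (D l) (b l p)
  rw [hb] at h1 ⊢
  simp only at h1
  rw [h1]
  rfl

/-- **Part 2.** Hypersurfaces, primes of good reduction. -/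
theorem hypersurfaces {Λ : Type} [Fintype Λ] [DecidableEq Λ] (n δ : Λ → ℕ) (J : ℕ) (a : Λ → ℕ → ℕ) (ε : ℝ) (hn : ∀ l, 2 ≤ n l) (hδ : ∀ l, 1 ≤ δ l)
    (ha : ∀ l, 2 * ∑ j ∈ Icc 1 J, j * a l j ≤ δ l + 1) (hε : 0 < ε) (hε1 : ε ≤ 1) :
    ∃ C : ℝ, AlmostAll ε C (∏ l, ∏ j ∈ Icc 1 J, moment ((-1) ^ (n l - 1)) j (a l j))
      (fun t : (Σ l, Mon (n l) (δ l)) → ℤ => {p | ∀ l, Good (form fun m => t ⟨l, m⟩) p})
      fun t p => ∏ l, ∏ j ∈ Icc 1 J, trace ∅ (form fun m => t ⟨l, m⟩) (n l) (∑ i ∈ range (n l), ((p : ℝ) ^ j) ^ i) p j ^ a l j := by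
  classical
  obtain ⟨b, hb⟩ : ∃ b : Λ → ℕ → ℕ → ℝ, b = fun (l : Λ) (p j : ℕ) => ∑ i ∈ range (n l), ((p : ℝ) ^ j) ^ i := ⟨_, rfl⟩
  have hs : ∀ l : Λ, ((-1 : ℝ) ^ (n l - 1)) ^ 2 = 1 := fun l => by rw [← pow_mul, mul_comm, pow_mul, neg_one_sq, _root_.one_pow]
  have hmm : ∏ l, ∏ j ∈ Icc 1 J, moment ((-1) ^ (n l - 1)) j (a l j) = mm (fun l => (-1 : ℝ) ^ (n l - 1)) a J := by
    unfold mm
    exact prod_congr rfl fun l _ => prod_congr rfl fun j _ => moment_eq j (a l j)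
  rw [hmm]
  obtain ⟨C₀, hC₀⟩ : ∃ C₀ : ℝ, C₀ = 1 + ∑ l, (n l : ℝ) := ⟨_, rfl⟩
  have hC₀1 : 1 ≤ C₀ := by
    rw [hC₀]
    have : 0 ≤ ∑ l, (n l : ℝ) := sum_nonneg fun l _ => Nat.cast_nonneg _
    linarith
  have hC₀n : ∀ l, (n l : ℝ) ≤ C₀ := fun l => by
    rw [hC₀]
    have := single_le_sum (f := fun l => (n l : ℝ)) (fun l _ => Nat.cast_nonneg _) (mem_univ l)
    linarith
  obtain ⟨good, hgood⟩ : ∃ good : (p : ℕ) → ((Σ l, Mon (n l) (δ l)) → ZMod p) → Prop, good = fun p c => ∀ l, ∀ _ : Fact p.Prime,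
    IsSmooth (map (algebraMap (ZMod p) (AlgebraicClosure (ZMod p))) (form fun m => c ⟨l, m⟩)) := ⟨_, rfl⟩
  obtain ⟨bad, hbad⟩ : ∃ bad : (p : ℕ) → ((Σ l, Mon (n l) (δ l)) → ZMod p) → ℝ, bad = fun p c =>
    ∑ l, if Pool.Agent.Y722.HS.IsBad p (fun m => c ⟨l, m⟩) then (1 : ℝ) else 0 := ⟨_, rfl⟩
  have hform : ∀ (l : Λ) (t : (Σ l, Mon (n l) (δ l)) → ℤ) (p : ℕ),
      map (Int.castRingHom (ZMod p)) (form fun m => t ⟨l, m⟩) = form fun m => (t ⟨l, m⟩ : ZMod p) := by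
    intro l t p
    unfold Pool.Agent.Y722.HS.form
    simp [map_sum, map_prod]
  have hE := engine (δ := δ) (d := n) (B := J) (fun l p _ => WS (n := n l) ∅ p) b hs a (by linarith : 0 ≤ C₀) hn
    (fun l p hp => sz_proj (by have := hn l; omega) J p (hC₀n l)) (fun l p hp j hj => by
      rw [hb]
      exact cen_proj p hC₀1 (mem_Icc.1 hj).1)
    ha good bad (fun p c => by
      rw [hbad]
      exact sum_nonneg fun l _ => by split_ifs <;> norm_num)
    (fun p c h => by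
      rw [hgood] at h
      simp only at h
      push Not at h
      obtain ⟨l, hF, h⟩ := h
      have h1 : Pool.Agent.Y722.HS.IsBad p (fun m => c ⟨l, m⟩) := by
        by_contra hno
        exact h (Pool.Agent.Y722.HS.isSmooth_of_not_isBad p (hδ l) _ hno)
      rw [hbad]
      simp only
      refine le_trans (le_of_eq ?_) (single_le_sum (f := fun l => if Pool.Agent.Y722.HS.IsBad p (fun m => c ⟨l, m⟩) then (1 : ℝ) else 0)
        (fun l _ => by split_ifs <;> norm_num) (mem_univ l))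
      rw [if_pos h1])
    (Cb := ∑ l, ((δ l : ℝ) + (Pool.Agent.Y722.HS.Delta (n l) (δ l)).totalDegree + 1)) (sum_nonneg fun l _ => by positivity) (fun p hp => by
      rw [hbad]
      rw [Q282.CL.av_sum, sum_mul]
      refine sum_le_sum fun l _ => ?_
      refine le_trans (le_of_eq (av_one (M := fun l => Mon (n l) (δ l)) (F := ZMod p) l
        (fun c : Mon (n l) (δ l) → ZMod p => if Pool.Agent.Y722.HS.IsBad p c then (1 : ℝ) else 0))) ?_
      rcases few_bad (n := n l) (δ := δ l) p with h | h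
      · exact h
      · exact absurd h (by have := hδ l; omega)) hε hε1
  refine almost _ hE _ _ fun t p hp => ?_
  have hF : Fact p.Prime := ⟨hp⟩
  have hiff : p ∈ {p | ∀ l, Good (form fun m => t ⟨l, m⟩) p} ↔ good p (rd p t) := by
    rw [hgood]
    show (∀ l, Good _ p) ↔ _
    unfold Good
    refine forall_congr' fun l => forall_congr' fun _ => ?_
    exact iff_of_eq (congrArg IsSmooth (congrArg (map (algebraMap (ZMod p) (AlgebraicClosure (ZMod p)))) (hform l t p)))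
  refine ⟨fun h => ?_, fun h => ?_⟩
  · unfold XX
    rw [dif_pos hp, if_pos (hiff.1 h)]
    congr 1
    unfold TT
    refine prod_congr rfl fun l _ => prod_congr rfl fun j hj => ?_
    have h1 := trace_eq (S := ∅) (fun G hG => absurd hG (Set.notMem_empty G)) p (mem_Icc.1 hj).1 (fun m => t ⟨l, m⟩) (n l) (b l p)
    rw [hb] at h1 ⊢
    simp only at h1
    rw [h1]
    rfl
  · unfold XX
    rw [dif_pos hp, if_neg (fun h' => h (hiff.2 h'))]

/-- **The joint Sato-Tate law of the powers of Frobenius for almost all products of sections and of hypersurfaces.** -/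
theorem result :
    -- sections `W_l ∩ {F_l = 0}` of subschemes `W_l` of dimension `D_l ≥ 2`, all primes
    (∀ {Λ : Type} [Fintype Λ] [DecidableEq Λ] (n D δ : Λ → ℕ) (S : ∀ l, Set (MvPolynomial (Fin (n l + 1)) ℤ)) (J : ℕ) (a : Λ → ℕ → ℕ) (C₀ ε : ℝ),
      (∀ l, 2 ≤ D l) → (∀ l, ∀ G ∈ S l, ∃ d, G.IsHomogeneous d) →
      (∀ l, ∀ p : ℕ, p.Prime → ∀ j ∈ Icc 1 J, |(points p j (S l) : ℝ) - (p : ℝ) ^ (j * D l)| ≤ C₀ * ((p : ℝ) ^ (j * D l) / Real.sqrt p)) →
      (∀ l, 2 * ∑ j ∈ Icc 1 J, j * a l j ≤ δ l + 1) → 0 < ε → ε ≤ 1 →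
      ∃ C : ℝ, AlmostAll ε C (∏ l, ∏ j ∈ Icc 1 J, moment ((-1) ^ (D l - 1)) j (a l j)) (fun _ => Set.univ)
        fun (t : (Σ l, Mon (n l) (δ l)) → ℤ) p =>
          ∏ l, ∏ j ∈ Icc 1 J, trace (S l) (form fun m => t ⟨l, m⟩) (D l) ((points p j (S l) : ℝ) / (p : ℝ) ^ j) p j ^ a l j) ∧
    -- hypersurfaces `F_l = 0` in `P ^ (n_l)`, primes of good reduction
    (∀ {Λ : Type} [Fintype Λ] [DecidableEq Λ] (n δ : Λ → ℕ) (J : ℕ) (a : Λ → ℕ → ℕ) (ε : ℝ), (∀ l, 2 ≤ n l) → (∀ l, 1 ≤ δ l) →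
      (∀ l, 2 * ∑ j ∈ Icc 1 J, j * a l j ≤ δ l + 1) → 0 < ε → ε ≤ 1 →
      ∃ C : ℝ, AlmostAll ε C (∏ l, ∏ j ∈ Icc 1 J, moment ((-1) ^ (n l - 1)) j (a l j))
        (fun t : (Σ l, Mon (n l) (δ l)) → ℤ => {p | ∀ l, Good (form fun m => t ⟨l, m⟩) p})
        fun t p => ∏ l, ∏ j ∈ Icc 1 J, trace ∅ (form fun m => t ⟨l, m⟩) (n l) (∑ i ∈ range (n l), ((p : ℝ) ^ j) ^ i) p j ^ a l j) :=
  ⟨fun n D δ S J a C₀ ε hD hS hW ha hε hε1 => sections n D δ S J a C₀ ε hD hS hW ha hε hε1,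
    fun n δ J a ε hn hδ ha hε hε1 => hypersurfaces n δ J a ε hn hδ ha hε hε1⟩

end Pool.Agent.Results.MP_32ceeb_nt.PowerTraces
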