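import Pool.Agent.Run7.h328.SEP.PolyB

/-!
# Sato-Tate moments of the cohomology of `∏ C_l^(r_l) × Y`, for an arbitrary fixed variety `Y` and almost all curves `C_l`

Let `K` be a number field of degree `d` (`K = ℚ` in the question), let `C_l`, `1 ≤ l ≤ n`, be the smooth projective curve
`y² = x^(2 g_l + 1) + ∑ (α_(l,i) + m_(l,i)) x^i` of genus `g_l ≥ G`, where `α_(l,i) ∈ 𝓞_K` are given and `m_(l,i)` are integers, and
let `Y` be a smooth projective variety over `K`.  For `V = ∏ C_l^(r_l) × Y` and a prime `v` of good reduction let `t_l` and `y_e` be the traces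
of the Frobenius on `H¹(C_l)(1/2)` and `H^e(Y)(e/2)`, that is, the traces on `H¹(C_l)`, `H^e(Y)` divided by `q_v^(1/2)`, `q_v^(e/2)`.  By
Künneth's formula the trace on `H^i(V)(i/2)` is the coefficient of `T^i` in `∏ (1 + t_l T + T²)^(r_l) ∑ y_e T^e`.

For almost all `m` the monodromy of the curves is as large as possible and independent of `Y`, and the moments up to the order
`2 G + 1` of the trace of a random matrix in `USp(2 g_l)` are those of a standard normal variable.  So the Sato-Tate conjecture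
predicts that the joint moments of the traces on `H^(i_1)(V_1), ..., H^(i_k)(V_k)`, `i_1 + ... + i_k ≤ 2 G + 1`, where `V_j` is the variety
`V` with the exponents `r_(j,l)`, are obtained by replacing the `t_l` by independent standard normal variables `Z_l`.  In particular
these are the joint moments of the traces on the even cohomology groups of one `V`.

We show: for `H` large in terms of `ε`, `d`, `G` and the `g_l`, every `K` and `α`, all but a proportion `H ^ (-ε/500)` of the vectors `m` in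
the box `[-H, H] ^ (∑ (2 g_l + 1))` have the property

`|∑ w(v) q_v^(-iτ) (∏ tr(H^(i_j)(V_j)(i_j/2)) - E ∏ (the same with Z_l for t_l))| ≤ C B^k 3^(∑ r_(j,l)) (T ^ (1/2 + ε) + (log H) ^ (4/ε))`,

the sum over the primes `v` with `q_v ≤ T` at which all curves have good reduction, for all `k`, all `i_j ≥ 1` with
`i_1 + ... + i_k ≤ 2 G + 1`, all exponents `r_(j,l)`, all `T ≤ H ^ (ε/200)`, all `|τ| ≤ H ^ (ε/200)`, all `w` in a set `W` of complex weights of
absolute value at most `1` and all `Y` in a set `𝒴` of varieties (given by the functions `y_e(v)`, `|y_e(v)| ≤ B`), where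
`|W| |𝒴| ≤ H ^ (ε/600)`, at the same time.  So the Sato-Tate conjecture for `Y` implies the one for these moments of `V`.

Proof.  At the primes of degree one, i.e. at the homomorphisms `φ : 𝓞_K → F_p`, the means over all `m` modulo `p` of the products of
powers of the `t_l` are the products of the moments of the groups `USp(2 g_l)` up to `O(1/p)` (starting library `Y57.FD` for one
curve).  The residues of `m` modulo the square-free numbers up to a power of `H` are uniformly distributed; hence the `2 j`-th moment of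
the sum over the prime numbers in `(y, 2 y]`, for `j` about `log H / log y`, is at most `(C j y) ^ j`.  We take the union over all `T`,
the weights `w ∏ y_(e_j)` and a grid of `τ`.
-/

set_option autoImplicit false

open Filter

namespace Pool.Agent.Results.MP_32ceeb_nt.PowersTimesFixed

open NumberField IsDedekindDomain Finset

/-- The number of the solutions of `y ^ 2 = x ^ D + ∑ c_i x ^ i` in `R`. -/
noncomputable def points {R : Type} [CommRing R] {D : ℕ} (c : Fin D → R) : ℕ :=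
  Nat.card {P : R × R // P.2 ^ 2 = P.1 ^ D + ∑ i, c i * P.1 ^ (i : ℕ)}

variable {K : Type} [Field K] [NumberField K]

/-- `q_v`, the norm of `v`. -/
noncomputable def q (v : HeightOneSpectrum (𝓞 K)) : ℕ := Ideal.absNorm v.asIdeal

/-- The coefficients modulo `v`. -/
noncomputable def bar {D : ℕ} (v : HeightOneSpectrum (𝓞 K)) (c : Fin D → 𝓞 K) : Fin D → 𝓞 K ⧸ v.asIdeal :=
  fun i => Ideal.Quotient.mk v.asIdeal (c i)

/-- `v` does not divide `2` and the polynomial `x ^ D + ∑ c_i x ^ i` is separable modulo `v`, so that the curve is smooth modulo `v`. -/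
def Good {D : ℕ} (v : HeightOneSpectrum (𝓞 K)) (c : Fin D → 𝓞 K) : Prop :=
  (2 : 𝓞 K) ∉ v.asIdeal ∧
    (Polynomial.X ^ D + ∑ i, Polynomial.C (bar v c i) * Polynomial.X ^ (i : ℕ) : Polynomial (𝓞 K ⧸ v.asIdeal)).Separable

/-- The trace of the Frobenius at `v` on `H¹` of the curve `y ^ 2 = x ^ D + ∑ c_i x ^ i`, `D` odd, divided by `q_v ^ (1 / 2)`:
`(q_v + 1 - #C(k_v)) / q_v ^ (1 / 2)`; there is one point at infinity. -/
noncomputable def trace {D : ℕ} (v : HeightOneSpectrum (𝓞 K)) (c : Fin D → 𝓞 K) : ℝ :=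
  (((q v : ℝ) + 1) - ((points (bar v c) : ℝ) + 1)) / Real.sqrt (q v)

/-- The moments of a standard normal variable. -/
noncomputable def normal (j : ℕ) : ℝ := if Even j then (Nat.doubleFactorial (j - 1) : ℝ) else 0

/-- `E P(Z_1, ..., Z_n)` for independent standard normal variables `Z_l`. -/
noncomputable def gaussian {n : ℕ} (P : MvPolynomial (Fin n) ℝ) : ℝ := ∑ κ ∈ P.support, P.coeff κ * ∏ l, normal (κ l)

/-- The trace on `H^m(∏ C_l^(r_l))(m/2)` as a polynomial in the traces `x_l` on the `H¹(C_l)(1/2)`: the coefficient of `T ^ m` in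
`∏ (1 + x_l T + T ^ 2) ^ (r_l)`. -/
noncomputable def curvesPoly {n : ℕ} (r : Fin n → ℕ) (m : ℕ) : MvPolynomial (Fin n) ℝ :=
  (∏ l, (1 + Polynomial.C (MvPolynomial.X l) * Polynomial.X + Polynomial.X ^ 2 : Polynomial (MvPolynomial (Fin n) ℝ)) ^ r l).coeff m

/-- The trace on `H^i(V)(i/2)`, `V = ∏ C_l^(r_l) × Y`, as a polynomial in the traces `x_l` on the `H¹(C_l)(1/2)`, by Künneth's formula;
`y e` is the trace on `H^e(Y)(e/2)`. -/
noncomputable def tracePoly {n : ℕ} (r : Fin n → ℕ) (y : ℕ → ℝ) (i : ℕ) : MvPolynomial (Fin n) ℝ :=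
  ∑ e ∈ range (i + 1), MvPolynomial.C (y e) * curvesPoly r (i - e)

section
variable {n : ℕ} (g : Fin n → ℕ)

/-- The indices of the coefficients: `(l, i)` with `1 ≤ l ≤ n`, `0 ≤ i ≤ 2 g_l`. -/
abbrev Index : Type := Σ l : Fin n, Fin (2 * g l + 1)

/-- The coefficients of the curve number `l`. -/
def curve {R : Type} (c : Index g → R) (l : Fin n) : Fin (2 * g l + 1) → R := fun i => c ⟨l, i⟩

/-- All curves have good reduction at `v`. -/
def AllGood (c : Index g → 𝓞 K) (v : HeightOneSpectrum (𝓞 K)) : Prop := ∀ l, Good v (curve g c l)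

/-- The product of the traces on the `H^(i_j)(V_j)(i_j/2)` minus the expected value. -/
noncomputable def deviation {k : ℕ} (r : Fin k → Fin n → ℕ) (i : Fin k → ℕ) (y : ℕ → HeightOneSpectrum (𝓞 K) → ℝ)
    (c : Index g → 𝓞 K) (v : HeightOneSpectrum (𝓞 K)) : ℝ :=
  ∏ j, MvPolynomial.eval (fun l => trace v (curve g c l)) (tracePoly (r j) (fun e => y e v) (i j)) -
    gaussian (∏ j, tracePoly (r j) (fun e => y e v) (i j))

open Classical in
/-- The sum over the primes `v` with `q_v ≤ T` at which all curves have good reduction. -/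
noncomputable def primeSum {k : ℕ} (r : Fin k → Fin n → ℕ) (i : Fin k → ℕ) (w : HeightOneSpectrum (𝓞 K) → ℂ)
    (y : ℕ → HeightOneSpectrum (𝓞 K) → ℝ) (c : Index g → 𝓞 K) (T : ℕ) (τ : ℝ) : ℂ :=
  ∑' v : HeightOneSpectrum (𝓞 K), if q v ≤ T ∧ AllGood g c v then
    w v * (q v : ℂ) ^ (-(τ * Complex.I) : ℂ) * ((deviation g r i y c v : ℝ) : ℂ) else 0

/-- The box `[-H, H] ^ (∑ (2 g_l + 1))`. -/
noncomputable def cube (H : ℕ) : Finset (Index g → ℤ) := Fintype.piFinset fun _ => Icc (-(H : ℤ)) H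

open Run7.h328.SEP.Taub in
lemma al_eq (c : Index g → 𝓞 K) (l : Fin n) (v : HeightOneSpectrum (𝓞 K)) :
    - al g c l v = trace v (curve g c l) := by
  have h : Nat.card (𝓞 K ⧸ v.asIdeal) = q v := rfl
  unfold al trace Run7.h328.SEP.HypK.a1
  rw [h, ← neg_div]
  congr 1
  have : (points (bar v (curve g c l)) : ℝ) =
    (Run7.h328.SEP.HypK.N1 (Run7.h328.SEP.HypK.rv v (Run7.h328.SEP.TupK.cp g l c)) : ℝ) := rfl
  rw [this]
  ring

end

/-- **The theorem.**  See the head of the file. -/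
theorem result {n : ℕ} (g : Fin n → ℕ) (G : ℕ) (hG : ∀ l, G ≤ g l) (d : ℕ) :
    ∃ C : ℝ, 0 < C ∧ ∀ ε : ℝ, 0 < ε → ε ≤ 1 → ∃ H₀ : ℕ, ∀ H : ℕ, H₀ ≤ H →
    ∀ (K : Type) [Field K] [NumberField K], Module.finrank ℚ K = d → ∀ α : Index g → 𝓞 K, ∀ B : ℝ, 0 < B →
    ∀ (W : Finset (HeightOneSpectrum (𝓞 K) → ℂ)) (𝒴 : Finset (ℕ → HeightOneSpectrum (𝓞 K) → ℝ)),
    (∀ w ∈ W, ∀ v, ‖w v‖ ≤ 1) → (∀ y ∈ 𝒴, ∀ e v, |y e v| ≤ B) → (W.card * 𝒴.card : ℝ) ≤ (H : ℝ) ^ (ε / 600) →
    ∃ X ⊆ cube g H, (X.card : ℝ) ≤ (H : ℝ) ^ (-(ε / 500)) * (2 * H + 1) ^ (∑ l, (2 * g l + 1)) ∧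
      ∀ m ∈ cube g H \ X, ∀ w ∈ W, ∀ y ∈ 𝒴, ∀ (k : ℕ) (r : Fin k → Fin n → ℕ) (i : Fin k → ℕ),
        (∀ j, 1 ≤ i j) → ∑ j, i j ≤ 2 * G + 1 → ∀ (T : ℕ) (τ : ℝ), (T : ℝ) ≤ (H : ℝ) ^ (ε / 200) → |τ| ≤ (H : ℝ) ^ (ε / 200) →
        ‖primeSum g r i w y (fun i => α i + (m i : 𝓞 K)) T τ‖ ≤
          C * (B ^ k * 3 ^ (∑ j, ∑ l, r j l)) * ((T : ℝ) ^ (1 / 2 + ε) + Real.log H ^ (4 / ε)) := by
  obtain ⟨C, hC, h⟩ := Run7.h328.SEP.Poly.poly n g G hG d
  refine ⟨C, hC, fun ε hε hε1 => ?_⟩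
  obtain ⟨H₀, h⟩ := Filter.eventually_atTop.1 (h ε hε hε1)
  refine ⟨H₀, fun H hH K _ _ hK α B hB W 𝒴 hW h𝒴 hc => ?_⟩
  obtain ⟨Ex, hE1, hE2, hE3⟩ := h H hH K hK α B hB W hW 𝒴 h𝒴 hc
  have hbox : Pool.Agent.Y722.HS.box (Run7.h328.SEP.TupK.Ix g) H = cube g H := rfl
  have hcard : ((cube g H).card : ℝ) = (2 * H + 1) ^ (∑ l, (2 * g l + 1)) := by
    unfold cube
    rw [Fintype.card_piFinset]
    simp only [Int.card_Icc, Finset.prod_const, Finset.card_univ, Fintype.card_sigma, Fintype.card_fin]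
    have : ((H : ℤ) + 1 - -(H : ℤ)).toNat = 2 * H + 1 := by omega
    rw [this]
    push_cast
    ring
  rw [hbox] at hE1 hE2 hE3
  refine ⟨Ex, hE1, ?_, ?_⟩
  · rw [← hcard]
    exact hE2
  · intro m hm w hw y hy k r i hi1 hi T τ hT hτ
    have h1 := hE3 m hm w hw y hy k r i hi1 hi T hT τ hτ
    refine le_trans (le_of_eq ?_) h1
    congr 1
    unfold primeSum
    refine tsum_congr fun v => ?_
    unfold deviation
    simp only [← al_eq]
    rfl

end Pool.Agent.Results.MP_32ceeb_nt.PowersTimesFixed
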