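import Pool.Agent.Run7.h113.HC.Hsf
import Pool.Agent.Run7.h113.HC.Main

/-!
# The L-functions of the symmetric powers of the even cohomology of random hypersurfaces, up to the line `Re s = 1`

Let `X_l`, `l < r`, be hypersurfaces of degrees `δ_l` and even dimensions `2 m_l ≥ 2` over `ℚ`, with independent integer
coefficients of absolute value at most `H`, and let `V_l` be the primitive part of `H^(2 m_l)(X_l)(m_l)`. Almost all `X_l` have
the full orthogonal group of `V_l` as algebraic monodromy group. The equidistribution of the page for the product of the `X_l`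
amounts to statements on the L-functions

  `L(s) = ∏_p det(1 - Frob_p p^(-s) | V)⁻¹`, `V = ⨂_l ⨂_i Sym^(k_(l,i)) V_l`

(every irreducible representation of the product of the orthogonal groups is contained in such a representation):
`L(s)` should have a pole at `s = 1` of order the dimension of the invariants, and no other zero or pole on the line
`Re s = 1`. For a generic surface of degree `≥ 4` nothing of this kind is known even for `V_l ⊗ V_l`, unless it is of a
special form. Here `L(s)`, divided by the power of the zeta function, gets a *limit law* over the family, if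
`2 ∑_i k_(l,i) ≤ δ_l + 1` for all `l`. In this range the predicted order is `ρ = ∏_l ρ_l`, `ρ_l` the number of the multigraphs
(loops allowed) in which the vertex `i` has degree `k_(l,i)` (a loop counts twice): for one symmetric power `Sym^k` it is `1` if
`k` is even, by the quadratic form on `V_l`, and `0` if `k` is odd; for the tensor powers `V_l^(⊗ 2 n)`, all `k_(l,i) = 1`, it
is the number `(2 n - 1)!!` of perfect matchings.

The coefficients modulo the primes, chosen independently and uniformly, define a random Euler product. Its quotient by
`ζ(s) ^ ρ` has almost surely a logarithm `Φ` which is analytic in `Re s > 1 / 2`. If `ε_H → 0` and `ε_H log H → ∞`,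
then the functions `s ↦ log (L(s + ε_H) / ζ(s + ε_H) ^ ρ)` of the random hypersurfaces of height at most `H` converge in
distribution to `Φ`, uniformly on every compact subset of the *closed* half-plane `Re s ≥ 1`. In particular
`ε_H ^ ρ |L(1 + ε_H)|` has a limit law on the positive real numbers. Both for `Φ` and for the members of the family the
probability of values `≥ V` is triple exponentially small.

The joint moments of the traces of the powers of Frobenius at one prime are those of helper3 (`Run7/h3/ST`, `PowerTraces` of this
page), the combinatorics of the multigraphs is that of helper712 (`Run7/h712/HE`); singular members modulo `p` are treated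
with the second moment, which explains the factor `2` in `2 ∑ k ≤ δ + 1`.

Definitions (`Run7.h113.HC.Defs`, `Run7.h113.HC.Hsf`):
* `Mon n δ`: the monomials of degree `δ` in `n + 1` variables; `form c`: the form with the coefficients `c`; `IsSmooth`.
* `IsPrimitiveFrobenius m δ b β`: `β p c x`, `x < b`, are the normalised eigenvalues of Frobenius on the primitive part of
  the middle cohomology of the hypersurface with the coefficients `c` modulo `p` (given by the numbers of points over all
  finite extensions), if it is smooth; otherwise any numbers of absolute value at most `1` (e.g. `0`).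
* `Mono E k`: the monomials of degree `k` in the variables `x ∈ E`.
* `HasRandomEulerProduct ρ α`: the statement above, for the Euler product `LFun α c s` over the `p` of the product of the
  `(1 - α p (c mod p) j p^(-(1 + s)))⁻¹`. In the Lean text the variable `s` is shifted by `1`. `EulerLogs`: the
  logarithms; `Converges`: the random Euler product; `FunctionalLimit`: the limit theorem in `C(K, ℂ)`;
  `LeadingCoefficient`: the law at `s = 1`; `Tails`: large deviations.
-/

set_option autoImplicit false

namespace Pool.Agent.Results.MP_32ceeb_nt.SymmetricPowersOnTheEdge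

open Finset
open Pool.Agent.Y722.HS (Mon)
open Run7.h113.HC Run7.h113.FE

variable {r : ℕ}

/-- The coefficients of `r` forms of degrees `δ_l` in `2 m_l + 2` variables. -/
abbrev Coeffs (m δ : Fin r → ℕ) : Type := Σ l, Mon (2 * m l + 1) (δ l)

/-- The normalised eigenvalues of Frobenius on the tensor product over `l` and `i` of the symmetric powers `Sym^(k_(l,i)) V_l`:
the products of monomials in the eigenvalues on the `V_l`. -/
noncomputable def eigen (m δ b ν : Fin r → ℕ) (k : ∀ l, Fin (ν l) → ℕ)
    (β : ∀ l, (p : Nat.Primes) → (Mon (2 * m l + 1) (δ l) → ZMod p) → Fin (b l) → ℂ)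
    (p : Nat.Primes) (c : Coeffs m δ → ZMod p) (J : ∀ l i, Mono (Fin (b l)) (k l i)) : ℂ :=
  ∏ l, ∏ i, ∏ x, β l p (fun μ => c ⟨l, μ⟩) x ^ ((J l i).1 x : ℕ)

/-- The degree of the vertex `i` in the multigraph with `e z` edges `z`; a loop counts twice. -/
def degree {n : ℕ} (e : Sym2 (Fin n) → ℕ) (i : Fin n) : ℕ := (∑ j, e s(i, j)) + e s(i, i)

/-- The number of the multigraphs on `n` vertices with the degrees `k i`. -/
noncomputable def graphs {n : ℕ} (k : Fin n → ℕ) : ℕ := Set.ncard {e : Sym2 (Fin n) → ℕ | ∀ i, degree e i = k i}

/-- One symmetric power. -/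
lemma graphs_one (k : ℕ) : graphs (fun _ : Fin 1 => k) = if Even k then 1 else 0 := by
  have hd : ∀ (e : Sym2 (Fin 1) → ℕ) (i : Fin 1), degree e i = 2 * e s(0, 0) := by
    intro e i
    unfold degree
    rw [Fintype.sum_unique, Subsingleton.elim i 0, Subsingleton.elim (default : Fin 1) 0]
    ring
  have hz : ∀ z : Sym2 (Fin 1), z = s(0, 0) := by
    intro z
    induction z with
    | _ x y => rw [Subsingleton.elim x 0, Subsingleton.elim y 0]
  unfold graphs
  split_ifs with h
  · obtain ⟨a, rfl⟩ := h
    rw [Set.ncard_eq_one]
    refine ⟨fun _ => a, ?_⟩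
    ext e
    rw [Set.mem_ofPred_eq, Set.mem_singleton_iff]
    constructor
    · intro h1
      have h2 : degree e 0 = a + a := h1 0
      rw [hd] at h2
      funext z
      rw [hz z]
      show e s(0, 0) = a
      omega
    · rintro rfl i
      rw [hd]
      ring
  · have h1 : {e : Sym2 (Fin 1) → ℕ | ∀ i, degree e i = k} = ∅ := by
      rw [Set.eq_empty_iff_forall_notMem]
      intro e he
      have h2 : degree e 0 = k := he 0
      rw [hd] at h2
      exact h ⟨e s(0, 0), by omega⟩
    rw [h1, Set.ncard_empty]

/-- **Random Euler products for the symmetric powers.** Let `r` hypersurfaces of degrees `δ_l ≥ 1` and dimensions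
`2 m_l ≥ 2` be given by independent integer coefficients of absolute value at most `H`, and let
`2 ∑_i k_(l,i) ≤ δ_l + 1` for all `l`. The L-functions of the tensor product over `l` and `i` of the symmetric powers
`Sym^(k_(l,i))` of the primitive middle cohomology of the hypersurfaces, divided by `ζ(s) ^ ρ`, `ρ = ∏_l ρ_l`, `ρ_l` the number
of multigraphs with the degrees `k_(l,i)`, converge in distribution to a random Euler product on the closed half-plane
`Re s ≥ 1`, with a limit law of the leading coefficient and triple exponential tails. For one symmetric power `Sym^k` one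
has `ρ_l = 1` if `k` is even and `ρ_l = 0` if `k` is odd. -/
theorem result :
    (∀ (r : ℕ) (m δ b ν : Fin r → ℕ) (k : ∀ l, Fin (ν l) → ℕ), (∀ l, 1 ≤ m l) → (∀ l, 1 ≤ δ l) →
      (∀ l, 2 * ∑ i, k l i ≤ δ l + 1) →
      ∀ β : (l : Fin r) → (p : Nat.Primes) → (Mon (2 * m l + 1) (δ l) → ZMod p) → Fin (b l) → ℂ,
        (∀ l, IsPrimitiveFrobenius (m l) (δ l) (b l) (β l)) →
        HasRandomEulerProduct (∏ l, (graphs (k l) : ℝ)) (eigen m δ b ν k β)) ∧
    ∀ k : ℕ, graphs (fun _ : Fin 1 => k) = if Even k then 1 else 0 := by
  classical
  refine ⟨fun r m δ b ν k hm hδ hk β hβ => ?_, graphs_one⟩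
  obtain ⟨C, hC, h⟩ := mean_hyp hm hδ hβ k hk
  refine main (C := C) (fun p c J => ?_) hC fun p => ?_
  · unfold eigen
    rw [norm_prod]
    refine Finset.prod_le_one (fun l _ => norm_nonneg _) fun l _ => ?_
    rw [norm_prod]
    refine Finset.prod_le_one (fun i _ => norm_nonneg _) fun i _ => ?_
    rw [norm_prod]
    refine Finset.prod_le_one (fun x _ => norm_nonneg _) fun x _ => ?_
    rw [norm_pow]
    exact pow_le_one₀ (norm_nonneg _) ((hβ l).bound p _ _)
  · refine le_trans (le_of_eq ?_) (h p)
    have h2 : ∀ c : Coeffs m δ → ZMod (p : ℕ), ∑ J, eigen m δ b ν k β p c J = FF β k p c := by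
      intro c
      unfold FF
      have h3 : ∀ l, ∏ i, hh (β l p fun μ => c ⟨l, μ⟩) (k l i) =
          ∑ g : (∀ i, Mono (Fin (b l)) (k l i)), ∏ i, ∏ x, β l p (fun μ => c ⟨l, μ⟩) x ^ ((g i).1 x : ℕ) := by
        intro l
        rw [Finset.prod_congr rfl fun i _ => (hh_mono (β l p fun μ => c ⟨l, μ⟩) (k l i)).symm, Finset.prod_univ_sum,
          Fintype.piFinset_univ]
      rw [Finset.prod_congr rfl fun l _ => h3 l, Finset.prod_univ_sum, Fintype.piFinset_univ]
      rfl
    have h4 : (fun c : Coeffs m δ → ZMod (p : ℕ) => ∑ J, eigen m δ b ν k β p c J) = FF β k p := funext h2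
    rw [h4]
    rfl

end Pool.Agent.Results.MP_32ceeb_nt.SymmetricPowersOnTheEdge
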